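import Mathlib
import Pool.Agent.H.MP_59868e_an.A

namespace Pool.Agent.Results.MP_59868e_an.Counter
open Pool.Agent.H.MP_59868e_an Filter Function Pointwise

/-- `A ∼ B`: translation equidecomposability with pieces in `𝒜`. -/
def Equi {X : Type} [AddCommGroup X] (𝒜 : Set (Set X)) (A B : Set X) : Prop :=
  ∃ (k : ℕ) (P : Fin k → Set X) (g : Fin k → X), (∀ i, P i ∈ 𝒜 ∧ g i +ᵥ P i ∈ 𝒜) ∧
    Pairwise (Disjoint on P) ∧ ⋃ i, P i = A ∧
    Pairwise (Disjoint on fun i => g i +ᵥ P i) ∧ ⋃ i, g i +ᵥ P i = B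

/-- `n[A] = n[B]`. -/
def EquiMul {X : Type} [AddCommGroup X] (𝒜 : Set (Set X)) (n : ℕ) (A B : Set X) : Prop :=
  ∃ (k : ℕ) (P : Fin k → Set X) (g : Fin k → X) (j m : Fin k → ℕ),
    (∀ i, P i ∈ 𝒜 ∧ g i +ᵥ P i ∈ 𝒜) ∧
    Pairwise (Disjoint on fun i => P i ×ˢ ({j i} : Set ℕ)) ∧
    ⋃ i, P i ×ˢ ({j i} : Set ℕ) = A ×ˢ Set.Iio n ∧
    Pairwise (Disjoint on fun i => (g i +ᵥ P i) ×ˢ ({m i} : Set ℕ)) ∧
    ⋃ i, (g i +ᵥ P i) ×ˢ ({m i} : Set ℕ) = B ×ˢ Set.Iio n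

theorem aux {X : Type} [AddCommGroup X] (ι : ℤ × ℤ →+ X) (hι : Injective ι) :
    ∃ (𝒜 : Set (Set X)) (A B : Set X),
      MeasureTheory.IsSetAlgebra 𝒜 ∧ (∀ t : X, ∀ S ∈ 𝒜, t +ᵥ S ∈ 𝒜) ∧ A ∈ 𝒜 ∧ B ∈ 𝒜 ∧
      EquiMul 𝒜 2 A B ∧ ¬ Equi 𝒜 A B := by
  let 𝒜 : Set (Set X) := {S | ∀ s : X, ∀ᶠ k : ℤ in atTop,
    (ι (k * k + k, 0) + s ∈ S ↔ ι (k * k + k, k) + s ∈ S)}
  have inv : ∀ t : X, ∀ S ∈ 𝒜, t +ᵥ S ∈ 𝒜 := by
    intro t S hS s
    filter_upwards [hS (-t + s)] with k hk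
    simpa only [Set.mem_vadd_set_iff_neg_vadd_mem, vadd_eq_add, add_left_comm] using hk
  have img : ∀ S, Loc S → ι '' S ∈ 𝒜 := by
    intro S hS s
    by_cases h : s ∈ ι.range
    · obtain ⟨s, rfl⟩ := h
      filter_upwards [hS s] with k hk
      simpa only [← map_add, hι.mem_set_image] using hk
    · have : ∀ x, ι x + s ∉ ι '' S := by
        rintro x ⟨y, -, e⟩
        exact h ⟨y - x, by rw [map_sub, e]; abel⟩
      simp [this]
  have tr : ∀ (t : ℤ × ℤ) (S : Set (ℤ × ℤ)), ι t +ᵥ ι '' S = ι '' {x | x - t ∈ S} := by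
    intro t S
    ext z
    constructor
    · rintro ⟨_, ⟨x, hx, rfl⟩, rfl⟩
      exact ⟨t + x, by simpa using hx, by simp⟩
    · rintro ⟨x, hx, rfl⟩
      exact ⟨_, ⟨_, hx, rfl⟩, by simp⟩
  obtain ⟨l1, l2, l3, l4, l5⟩ := loc_all
  refine ⟨𝒜, ι '' C, ι '' Q, ⟨fun s => by simp, fun S hS s => ?_, fun S T hS hT s => ?_⟩, inv,
    img _ l1, img _ l2, ?_, ?_⟩
  · filter_upwards [hS s] with k hk
    simp [hk]
  · filter_upwards [hS s, hT s] with k h1 h2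
    simp [h1, h2]
  · have dj : ∀ (S : Fin 4 → Set (ℤ × ℤ)) (j : Fin 4 → ℕ) (T : Set (ℤ × ℤ)),
        (∀ x a b, x ∈ S a → x ∈ S b → j a = j b → a = b) →
        (∀ x n, (∃ a, x ∈ S a ∧ n = j a) ↔ x ∈ T ∧ n < 2) →
        Pairwise (Disjoint on fun i => (ι '' S i) ×ˢ ({j i} : Set ℕ)) ∧
        ⋃ i, (ι '' S i) ×ˢ ({j i} : Set ℕ) = (ι '' T) ×ˢ Set.Iio 2 := by
      intro S j T h1 h2
      constructor
      · intro a b hab
        refine Set.disjoint_left.mpr ?_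
        rintro ⟨z, n⟩ ⟨⟨x, hx, rfl⟩, e1⟩ ⟨⟨y, hy, e⟩, e2⟩
        obtain rfl := hι e
        exact hab (h1 y a b hx hy (e1.symm.trans e2))
      · ext ⟨z, n⟩
        simp only [Set.mem_iUnion, Set.mem_prod, Set.mem_singleton_iff, Set.mem_Iio]
        constructor
        · rintro ⟨a, ⟨x, hx, rfl⟩, e⟩
          have := (h2 x n).mp ⟨a, hx, e⟩
          exact ⟨⟨x, this.1, rfl⟩, this.2⟩
        · rintro ⟨⟨x, hx, rfl⟩, e⟩
          obtain ⟨a, h3, h4⟩ := (h2 x n).mpr ⟨hx, e⟩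
          exact ⟨a, ⟨x, h3, rfl⟩, h4⟩
    let S : Fin 4 → Set (ℤ × ℤ) := ![R, D, {0}, Q]
    let t : Fin 4 → ℤ × ℤ := ![(1, 0), (1, 1), (1, 1), 0]
    have hS : ∀ i, ι '' S i ∈ 𝒜 := fun i => img _ (by fin_cases i <;> assumption)
    obtain ⟨a1, a2⟩ := dj S ![0, 0, 1, 1] C (by
      rintro ⟨n, y⟩ a b
      fin_cases a <;> fin_cases b <;> simp [S, R, D, Q, top] <;> grind) (by
      rintro ⟨n, y⟩ m
      simp [Fin.exists_fin_succ, S, R, D, Q, C, top]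
      grind)
    obtain ⟨a3, a4⟩ := dj (fun i => {x | x - t i ∈ S i}) ![0, 0, 0, 1] Q (by
      rintro ⟨n, y⟩ a b
      fin_cases a <;> fin_cases b <;> simp [S, t, R, D, Q, top] <;> grind) (by
      rintro ⟨n, y⟩ m
      simp [Fin.exists_fin_succ, S, t, R, D, Q, top]
      have e1 : (y + 1) * (y + 1) = y * y + 2 * y + 1 := by ring
      have e2 : (y - 1) * (y - 1) = y * y - 2 * y + 1 := by ring
      have e3 : y = 1 → y * y = 1 := by rintro rfl; rfl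
      rw [e1, e2]
      generalize y * y = w at e3 ⊢
      omega)
    refine ⟨4, fun i => ι '' S i, fun i => ι (t i), _, ![0, 0, 0, 1], fun i => ⟨hS i, inv _ _ (hS i)⟩,
      a1, a2, ?_, ?_⟩
    · simpa only [tr] using a3
    · simpa only [tr] using a4
  · rintro ⟨n, P, g, h1, h2, h3, h4, h5⟩
    have e1 : ∀ x ∈ C, ∃ i, ι x ∈ P i := fun x hx =>
      Set.mem_iUnion.mp (h3 ▸ Set.mem_image_of_mem ι hx)
    have e2 : ∀ i, ∃ t : ℤ × ℤ, ∀ x, ι x ∈ P i → g i = ι t ∧ t + x ∈ Q := by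
      intro i
      have k1 : ∀ x, ι x ∈ P i → g i + ι x ∈ ι '' Q := fun x hx =>
        h5 ▸ Set.mem_iUnion.mpr ⟨i, _, hx, rfl⟩
      by_cases h : ∃ x, ι x ∈ P i
      · obtain ⟨x, hx⟩ := h
        obtain ⟨y, -, e⟩ := k1 x hx
        have k2 : g i = ι (y - x) := by rw [map_sub, e]; abel
        refine ⟨y - x, fun z hz => ⟨k2, ?_⟩⟩
        have := k1 z hz
        rwa [k2, ← map_add, hι.mem_set_image] at this
      · exact ⟨0, fun x hx => absurd ⟨x, hx⟩ h⟩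
    choose t ht using e2
    have hn : Nonempty (Fin n) := ⟨(e1 0 (by simp [C])).choose⟩
    choose! idx hidx using e1
    have uq : ∀ x ∈ C, ∀ i, ι x ∈ P i → idx x = i := fun x hx i hi =>
      by_contra fun hne => Set.disjoint_left.mp (h2 hne) (hidx x hx) hi
    obtain ⟨r, hr⟩ := (Set.finite_range (fun i => |(t i).1|)).bddAbove
    have hr' : ∀ i, |(t i).1| ≤ r := fun i => hr ⟨i, rfl⟩
    have ev : ∀ᶠ k : ℤ in atTop, ∀ i, ∀ a ∈ Set.Icc (-r) r,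
        (ι (k * k + k, 0) + ι (a, 0) ∈ P i ↔ ι (k * k + k, k) + ι (a, 0) ∈ P i) := by
      rw [eventually_all]
      intro i
      rw [eventually_all_finite (Set.finite_Icc _ _)]
      exact fun a _ => (h1 i).1 _
    obtain ⟨k, hk1, hk2⟩ := (ev.and (eventually_ge_atTop (r + 2))).exists
    refine parity (fun x => t (idx x) + x) ⟨fun x hx => (ht _ x (hidx x hx)).2, ?_, ?_⟩ r k hk2
      (fun x _ => by simpa using hr' _) ?_
    · intro x hx y hy e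
      simp only at e
      have : idx x = idx y := by
        by_contra hne
        refine Set.disjoint_left.mp (h4 hne) ⟨_, hidx x hx, rfl⟩ ⟨_, hidx y hy, ?_⟩
        simp only [vadd_eq_add]
        rw [(ht _ x (hidx x hx)).1, (ht _ y (hidx y hy)).1, ← map_add, ← map_add, e]
      rw [this] at e
      exact add_left_cancel e
    · intro y hy
      obtain ⟨i, z, hz, e⟩ := Set.mem_iUnion.mp (h5 ▸ Set.mem_image_of_mem ι hy)
      obtain ⟨x, hx, rfl⟩ : z ∈ ι '' C := h3 ▸ Set.mem_iUnion.mpr ⟨i, hz⟩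
      refine ⟨x, hx, hι ?_⟩
      simp only [uq x hx i hz, map_add, ← (ht i x hz).1]
      exact e
    · intro a ha
      have hb := abs_le.mp ha
      have hkk := mul_self_nonneg k
      have c1 : (k * k + k + a, (0 : ℤ)) ∈ C := Or.inl ⟨rfl, by simp only; omega⟩
      have c2 : (k * k + k + a, k) ∈ C :=
        Or.inr ⟨by simp only; omega, by simp only; omega, by simp only; nlinarith⟩
      have := hk1 (idx (k * k + k + a, 0)) a hb
      simp only [← map_add, Prod.mk_add_mk, add_zero] at this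
      simp [uq _ c2 _ (this.mp (hidx _ c1))]

theorem result : ∃ (X : Type) (_ : AddCommGroup X) (_ : TopologicalSpace X),
    IsTopologicalAddGroup X ∧ CompactSpace X ∧ T2Space X ∧
    ∃ (𝒜 : Set (Set X)) (A B : Set X),
      MeasureTheory.IsSetAlgebra 𝒜 ∧ (∀ t : X, ∀ S ∈ 𝒜, t +ᵥ S ∈ 𝒜) ∧ A ∈ 𝒜 ∧ B ∈ 𝒜 ∧
      EquiMul 𝒜 2 A B ∧ ¬ Equi 𝒜 A B :=
  ⟨ℤ_[2] × ℤ_[2], _, _, inferInstance, inferInstance, inferInstance,
    aux ((Int.castAddHom ℤ_[2]).prodMap (Int.castAddHom ℤ_[2]))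
      (Int.cast_injective.prodMap Int.cast_injective)⟩

end Pool.Agent.Results.MP_59868e_an.Counter
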